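import Pool.Agent.W217.BE.Stm2

/-!
Project BE, second wave: the induction step in the direction of a variable of `J`.
-/

set_option autoImplicit false

namespace Pool.Agent.W478.BEG2TRUE

open Polynomial
open Pool.Agent.W217.BE

section Basic

variable {A κ : Type} [CommRing A] [Field κ] {k : ℕ}

theorem chi_eq (χ : A →+* κ) (J : Fin (k + 1) → Bool) (hJ : J 0 = true)
    (p : MvPolynomial (Fin (k + 1)) A) :
    chiJ χ J p = chiJ χ (fun j => J (Fin.succ j)) ((MvPolynomial.finSuccEquiv A k p).coeff 0) := by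
  have h : chiJ χ J = ((chiJ χ (fun j => J (Fin.succ j))).comp (Polynomial.evalRingHom 0)).comp
      ((MvPolynomial.finSuccEquiv A k :
        MvPolynomial (Fin (k + 1)) A →+* (MvPolynomial (Fin k) A)[X])) := by
    refine MvPolynomial.ringHom_ext (fun a => ?_) (fun j => ?_)
    · have h1 : MvPolynomial.finSuccEquiv A k (MvPolynomial.C a) =
          Polynomial.C (MvPolynomial.C a) :=
        (MvPolynomial.finSuccEquiv A k).commutes a
      simp [chiJ, h1]
    · refine Fin.cases ?_ (fun j => ?_) j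
      · simp [chiJ, hJ, MvPolynomial.finSuccEquiv_X_zero]
      · simp [chiJ, MvPolynomial.finSuccEquiv_X_succ]
  rw [h]
  simp [Polynomial.coeff_zero_eq_eval_zero]

theorem e_monomial (α : Fin (k + 1) →₀ ℕ) (h0 : α 0 = 0) (a : A) :
    MvPolynomial.finSuccEquiv A k (MvPolynomial.monomial α a) =
      Polynomial.C (MvPolynomial.monomial (Finsupp.tail α) a) := by
  ext i m
  rw [MvPolynomial.finSuccEquiv_coeff_coeff, MvPolynomial.coeff_monomial, Polynomial.coeff_C]
  have hα : α = Finsupp.cons 0 (Finsupp.tail α) := by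
    conv_lhs => rw [← Finsupp.cons_tail α, h0]
  by_cases hi : i = 0
  · subst hi
    rw [if_pos rfl, MvPolynomial.coeff_monomial]
    have h1 : α = Finsupp.cons 0 m ↔ Finsupp.tail α = m := by
      constructor
      · intro h
        rw [h, Finsupp.tail_cons]
      · intro h
        rw [hα, h]
    simp only [h1]
  · rw [if_neg hi, MvPolynomial.coeff_zero, if_neg]
    intro h
    apply hi
    have h2 := congrArg (fun f => f 0) h
    simp only [Finsupp.cons_zero] at h2
    rw [← h2, h0]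

theorem cons_add_zero (t : ℤ) (b : Fin k → ℤ) :
    (Fin.cons t b : Fin (k + 1) → ℤ) + Pi.single 0 1 = Fin.cons (t + 1) b := by
  funext j
  refine Fin.cases ?_ (fun j => ?_) j
  · simp
  · simp

theorem cons_add_succ (t : ℤ) (b : Fin k → ℤ) (j : Fin k) :
    (Fin.cons t b : Fin (k + 1) → ℤ) + Pi.single (Fin.succ j) 1 =
      Fin.cons t (b + Pi.single j 1) := by
  funext i
  refine Fin.cases ?_ (fun i => ?_) i
  · simp
  · by_cases h : i = j
    · subst h
      simp
    · simp [h]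

end Basic

section Main

variable {A κ : Type} [CommRing A] [IsNoetherianRing A] [Field κ] {k : ℕ}
variable (M : Type) [AddCommGroup M] [Module A M] [Module (MvPolynomial (Fin (k + 1)) A) M]
    [IsScalarTower A (MvPolynomial (Fin (k + 1)) A) M]
    [Module (MvPolynomial (Fin k) A) M] [Module (MvPolynomial (Fin k) A)[X] M]
    [IsScalarTower (MvPolynomial (Fin k) A) (MvPolynomial (Fin k) A)[X] M]
    [IsScalarTower A (MvPolynomial (Fin k) A) M]
    (hsm : ∀ (p : MvPolynomial (Fin (k + 1)) A) (x : M),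
      MvPolynomial.finSuccEquiv A k p • x = p • x)
    (ℳ : (Fin (k + 1) → ℤ) → Submodule A M)
    (hℳ : ∀ j a x, x ∈ ℳ a →
      (MvPolynomial.X j : MvPolynomial (Fin (k + 1)) A) • x ∈ ℳ (a + Pi.single j 1))

include hsm in
theorem X_smul (j : Fin k) (x : M) :
    (MvPolynomial.X j : MvPolynomial (Fin k) A) • x =
      (MvPolynomial.X (Fin.succ j) : MvPolynomial (Fin (k + 1)) A) • x := by
  rw [← hsm, MvPolynomial.finSuccEquiv_X_succ]
  exact (algebraMap_smul (MvPolynomial (Fin k) A)[X] (MvPolynomial.X j) x).symm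

include hsm in
theorem X_smul_zero (x : M) :
    (X : (MvPolynomial (Fin k) A)[X]) • x =
      (MvPolynomial.X 0 : MvPolynomial (Fin (k + 1)) A) • x := by
  rw [← hsm, MvPolynomial.finSuccEquiv_X_zero]

/-- the slab as an `A`-submodule -/
noncomputable def NA (t : ℤ) : Submodule A M := ⨆ b : Fin k → ℤ, ℳ (Fin.cons t b)

include hsm hℳ in
theorem NA_smul (t : ℤ) (q : MvPolynomial (Fin k) A) : ∀ x ∈ NA M ℳ t, q • x ∈ NA M ℳ t := by
  induction q using MvPolynomial.induction_on with
  | C a =>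
    intro x hx
    have h1 : (MvPolynomial.C a : MvPolynomial (Fin k) A) • x = a • x :=
      algebraMap_smul (MvPolynomial (Fin k) A) a x
    rw [h1]
    exact Submodule.smul_mem _ _ hx
  | add p q hp hq =>
    intro x hx
    rw [add_smul]
    exact Submodule.add_mem _ (hp x hx) (hq x hx)
  | mul_X p j hp =>
    intro x hx
    rw [mul_smul]
    apply hp
    rw [X_smul M hsm]
    refine Submodule.iSup_induction (fun b : Fin k → ℤ => ℳ (Fin.cons t b))
      (motive := fun x => (MvPolynomial.X (Fin.succ j) : MvPolynomial (Fin (k + 1)) A) • x ∈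
        NA M ℳ t) hx ?_ ?_ ?_
    · intro b y hy
      have h2 := hℳ (Fin.succ j) _ y hy
      rw [cons_add_succ] at h2
      exact Submodule.mem_iSup_of_mem _ h2
    · rw [smul_zero]
      exact Submodule.zero_mem _
    · intro y z hy hz
      rw [smul_add]
      exact Submodule.add_mem _ hy hz

/-- the slab as a submodule over the smaller polynomial ring -/
noncomputable def NC (t : ℤ) : Submodule (MvPolynomial (Fin k) A) M where
  carrier := NA M ℳ t
  add_mem' := fun h1 h2 => Submodule.add_mem _ h1 h2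
  zero_mem' := Submodule.zero_mem _
  smul_mem' := fun q x hx => NA_smul M hsm ℳ hℳ t q x hx

theorem NC_X (t : ℤ) (x : M) (hx : x ∈ NC M hsm ℳ hℳ t) :
    (X : (MvPolynomial (Fin k) A)[X]) • x ∈ NC M hsm ℳ hℳ (t + 1) := by
  rw [X_smul_zero M hsm]
  change _ ∈ NA M ℳ (t + 1)
  refine Submodule.iSup_induction (fun b : Fin k → ℤ => ℳ (Fin.cons t b))
      (motive := fun x => (MvPolynomial.X 0 : MvPolynomial (Fin (k + 1)) A) • x ∈
        NA M ℳ (t + 1)) hx ?_ ?_ ?_
  · intro b y hy
    have h2 := hℳ 0 _ y hy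
    rw [cons_add_zero] at h2
    exact Submodule.mem_iSup_of_mem _ h2
  · rw [smul_zero]
    exact Submodule.zero_mem _
  · intro y z hy hz
    rw [smul_add]
    exact Submodule.add_mem _ hy hz

/-- the grading of a slab -/
noncomputable def gr (t : ℤ) (b : Fin k → ℤ) : Submodule A (NC M hsm ℳ hℳ t) :=
  (ℳ (Fin.cons t b)).comap ((NC M hsm ℳ hℳ t).subtype.restrictScalars A)

theorem gr_internal (hR : REGR0) (hint : DirectSum.IsInternal ℳ) (t : ℤ) :
    DirectSum.IsInternal (gr M hsm ℳ hℳ t) :=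
  (hR A k M ℳ hint).2 t

include hsm hℳ in
theorem gr_X (t : ℤ) (j : Fin k) (b : Fin k → ℤ) (x : NC M hsm ℳ hℳ t)
    (hx : x ∈ gr M hsm ℳ hℳ t b) :
    (MvPolynomial.X j : MvPolynomial (Fin k) A) • x ∈ gr M hsm ℳ hℳ t (b + Pi.single j 1) := by
  change (MvPolynomial.X j : MvPolynomial (Fin k) A) • (x : M) ∈
    ℳ (Fin.cons t (b + Pi.single j 1))
  rw [X_smul M hsm, ← cons_add_succ]
  exact hℳ _ _ _ hx

include hsm hℳ in
theorem slab_HB (hZ : ZNIL) (hR : REGR0) (hI : INTCAR) (χ : A →+* κ) (c : ℕ)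
    (J : Fin (k + 1) → Bool) (hJ : J 0 = true) (ih : G2 χ c (fun j => J (Fin.succ j)))
    (hint : DirectSum.IsInternal ℳ) (hnil : NIL χ J M) (hbase : BASEH χ c J M) (t : ℤ)
    [Module.Finite (MvPolynomial (Fin k) A) (NC M hsm ℳ hℳ t)]
    (hnz : NZ (chiJ χ (fun j => J (Fin.succ j))) (NC M hsm ℳ hℳ t)) :
    HB (chiJ χ (fun j => J (Fin.succ j))) (NC M hsm ℳ hℳ t)
      (fun i => (c + ∑ j : Fin k, if J (Fin.succ j) = true then 1 else 0).choose i) := by
  have hintC : DirectSum.IsInternal (NC M hsm ℳ hℳ) :=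
    hI A (MvPolynomial (Fin k) A) ℤ M (NA M ℳ) (NC M hsm ℳ hℳ) (fun i x => Iff.rfl)
      (hR A k M ℳ hint).1
  refine ih (NC M hsm ℳ hℳ t) (gr M hsm ℳ hℳ t) (gr_internal M hsm ℳ hℳ hR hint t)
    (gr_X M hsm ℳ hℳ t) hnz ?_ ?_
  · -- nilpotency
    intro j hj
    obtain ⟨n, s, hs, hx⟩ := hnil (Fin.succ j) hj
    refine ⟨n, (MvPolynomial.finSuccEquiv A k s).coeff 0, ?_, ?_⟩
    · rwa [← chi_eq χ J hJ]
    · have h1 := hZ (MvPolynomial (Fin k) A) M (NC M hsm ℳ hℳ) hintC
        (NC_X M hsm ℳ hℳ) (MvPolynomial.finSuccEquiv A k s) (MvPolynomial.X j ^ n) 0 ?_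
      · intro x
        apply Subtype.ext
        change ((MvPolynomial.finSuccEquiv A k s).coeff 0 * MvPolynomial.X j ^ n) • (x : M) = 0
        have h2 := h1 (x : M)
        rw [pow_zero, mul_one] at h2
        rw [← h2]
        exact (algebraMap_smul (MvPolynomial (Fin k) A)[X] _ (x : M)).symm
      · intro x
        have h2 := hx x
        rw [← hsm, map_mul, map_pow, MvPolynomial.finSuccEquiv_X_succ] at h2
        rw [pow_zero, mul_one, map_pow]
        exact h2
  · -- base hypothesis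
    intro N _ _ _ hN hk
    refine hbase N hN fun a ha => hk a ?_
    obtain ⟨α, hα, hx⟩ := ha
    refine ⟨Finsupp.tail α, fun j hj => hα _ hj, fun x => ?_⟩
    apply Subtype.ext
    change (MvPolynomial.monomial (Finsupp.tail α) a : MvPolynomial (Fin k) A) • (x : M) = 0
    have h2 := hx (x : M)
    rw [← hsm, e_monomial α (hα 0 hJ)] at h2
    rw [← h2]
    exact (algebraMap_smul (MvPolynomial (Fin k) A)[X] _ (x : M)).symm

include hsm in
theorem finite_CX [Module.Finite (MvPolynomial (Fin (k + 1)) A) M] :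
    Module.Finite (MvPolynomial (Fin k) A)[X] M := by
  obtain ⟨S, hS⟩ := (Module.Finite.fg_top : (⊤ : Submodule (MvPolynomial (Fin (k + 1)) A) M).FG)
  refine ⟨⟨S, ?_⟩⟩
  rw [eq_top_iff]
  intro x _
  have hx : x ∈ Submodule.span (MvPolynomial (Fin (k + 1)) A) (S : Set M) := by
    rw [hS]; trivial
  induction hx using Submodule.span_induction with
  | mem x hx => exact Submodule.subset_span hx
  | zero => exact Submodule.zero_mem _
  | add x y _ _ hx hy => exact Submodule.add_mem _ (hx trivial) (hy trivial)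
  | smul p x _ hx =>
    rw [← hsm]
    exact Submodule.smul_mem _ _ (hx trivial)

include hsm hℳ in
theorem all (hIso : ISO) (hStep : STEP) (hCut : ZCUT) (hZ : ZNIL) (hR : REGR0) (hI : INTCAR)
    [Module.Finite (MvPolynomial (Fin (k + 1)) A) M] (χ : A →+* κ) (c : ℕ)
    (J : Fin (k + 1) → Bool) (hJ : J 0 = true) (ih : G2 χ c (fun j => J (Fin.succ j)))
    (hint : DirectSum.IsInternal ℳ) (hnz : NZ (chiJ χ J) M) (hnil : NIL χ J M)
    (hbase : BASEH χ c J M) :
    HB (chiJ χ J) M (fun i => (c + ∑ j, if J j = true then 1 else 0).choose i) := by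
  have hintC : DirectSum.IsInternal (NC M hsm ℳ hℳ) :=
    hI A (MvPolynomial (Fin k) A) ℤ M (NA M ℳ) (NC M hsm ℳ hℳ) (fun i x => Iff.rfl)
      (hR A k M ℳ hint).1
  haveI := finite_CX M hsm
  have hnz' : NZ ((chiJ χ (fun j => J (Fin.succ j))).comp (Polynomial.evalRingHom 0)) M := by
    obtain ⟨x, hx⟩ := hnz
    refine ⟨x, fun s hs => ?_⟩
    have h1 := hx ((MvPolynomial.finSuccEquiv A k).symm s) (by
      rw [chi_eq χ J hJ, AlgEquiv.apply_symm_apply, Polynomial.coeff_zero_eq_eval_zero]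
      exact hs)
    rwa [← hsm, AlgEquiv.apply_symm_apply] at h1
  have hex : ∃ (n : ℕ) (s : (MvPolynomial (Fin k) A)[X]),
      chiJ χ (fun j => J (Fin.succ j)) (s.coeff 0) ≠ 0 ∧ ∀ x : M, (s * X ^ n) • x = 0 := by
    obtain ⟨n, s, hs, hx⟩ := hnil 0 hJ
    refine ⟨n, MvPolynomial.finSuccEquiv A k s, ?_, fun x => ?_⟩
    · rwa [← chi_eq χ J hJ]
    · have h2 := hx x
      rw [← hsm, map_mul, map_pow, MvPolynomial.finSuccEquiv_X_zero] at h2
      exact h2
  obtain ⟨t₁, π₁, ι₁, s₁, hs₁, hnz₁, hfin₁, hπι₁, hbot, -⟩ :=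
    hCut (MvPolynomial (Fin k) A) κ _ M (NC M hsm ℳ hℳ) hintC (NC_X M hsm ℳ hℳ) hnz' hex false
  obtain ⟨t₂, π₂, ι₂, s₂, hs₂, hnz₂, hfin₂, hπι₂, -, htop⟩ :=
    hCut (MvPolynomial (Fin k) A) κ _ M (NC M hsm ℳ hℳ) hintC (NC_X M hsm ℳ hℳ) hnz' hex true
  have h1 := slab_HB M hsm ℳ hℳ hZ hR hI χ c J hJ ih hint hnil hbase t₁ hnz₁
  have h2 := slab_HB M hsm ℳ hℳ hZ hR hI χ c J hJ ih hint hnil hbase t₂ hnz₂
  have h3 := hStep (MvPolynomial (Fin k) A) κ (chiJ χ (fun j => J (Fin.succ j))) M _ _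
    ι₁ π₁ ι₂ π₂ s₁ s₂ _ _ hs₁ hs₂ (hbot rfl) hπι₁ (htop rfl) hπι₂ h1 h2
  have h4 := hIso (MvPolynomial (Fin k) A)[X] (MvPolynomial (Fin (k + 1)) A) κ
    (MvPolynomial.finSuccEquiv A k).symm.toRingEquiv _ (chiJ χ J) M M (AddEquiv.refl M) _
    (fun s => by
      change chiJ χ J ((MvPolynomial.finSuccEquiv A k).symm s) = _
      rw [chi_eq χ J hJ, AlgEquiv.apply_symm_apply, Polynomial.coeff_zero_eq_eval_zero]
      rfl)
    (fun s x => by
      change s • x = (MvPolynomial.finSuccEquiv A k).symm s • x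
      rw [← hsm, AlgEquiv.apply_symm_apply]) h3
  have h5 : (fun i => (c + ∑ j, if J j = true then 1 else 0).choose i) =
      fun i => (c + ∑ j : Fin k, if J (Fin.succ j) = true then 1 else 0).choose i +
        if i = 0 then 0 else
          (c + ∑ j : Fin k, if J (Fin.succ j) = true then 1 else 0).choose (i - 1) := by
    funext i
    rw [Fin.sum_univ_succ, if_pos hJ]
    rcases i with _ | i
    · simp
    · rw [if_neg (Nat.succ_ne_zero i), Nat.add_sub_cancel, ← add_assoc, add_right_comm,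
        Nat.choose_succ_succ, add_comm]
  rw [h5]
  exact h4

end Main

theorem main : ISO → STEP → ZCUT → ZNIL → REGR0 → INTCAR → G2TRUE := by
  intro hIso hStep hCut hZ hR hI A κ _ _ _ χ c k J hJ ih M _ _ _ _ _ ℳ hint hℳ hnz hnil hbase
  letI i1 : Module (MvPolynomial (Fin k) A)[X] M :=
    Module.compHom M ((MvPolynomial.finSuccEquiv A k).symm :
      (MvPolynomial (Fin k) A)[X] →+* MvPolynomial (Fin (k + 1)) A)
  letI i2 : Module (MvPolynomial (Fin k) A) M :=
    Module.compHom M (Polynomial.C : MvPolynomial (Fin k) A →+* (MvPolynomial (Fin k) A)[X])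
  haveI i3 : IsScalarTower (MvPolynomial (Fin k) A) (MvPolynomial (Fin k) A)[X] M :=
    IsScalarTower.of_algebraMap_smul fun r x => rfl
  have hsm : ∀ (p : MvPolynomial (Fin (k + 1)) A) (x : M),
      MvPolynomial.finSuccEquiv A k p • x = p • x := by
    intro p x
    change ((MvPolynomial.finSuccEquiv A k).symm (MvPolynomial.finSuccEquiv A k p)) • x = p • x
    rw [AlgEquiv.symm_apply_apply]
  haveI i4 : IsScalarTower A (MvPolynomial (Fin k) A) M := by
    refine IsScalarTower.of_algebraMap_smul fun r x => ?_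
    have h1 : MvPolynomial.finSuccEquiv A k (MvPolynomial.C r) =
          Polynomial.C (MvPolynomial.C r) :=
        (MvPolynomial.finSuccEquiv A k).commutes r
    have h2 := hsm (MvPolynomial.C r) x
    rw [h1] at h2
    have h3 : (MvPolynomial.C r : MvPolynomial (Fin (k + 1)) A) • x = r • x :=
      algebraMap_smul (MvPolynomial (Fin (k + 1)) A) r x
    rw [h3] at h2
    exact h2
  exact all M hsm ℳ hℳ hIso hStep hCut hZ hR hI χ c J hJ ih hint hnz hnil hbase

end Pool.Agent.W478.BEG2TRUE
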